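import Pool.Agent.Helper13.TR.StA

/-!
# Project TR, module PRI: homotopy invariance of singular chains, with carriers

The prism operator.  It is first defined on ordered chains (formal sums of lists of points of a type)
by recursion with cones, where the homotopy formula is a short induction; the singular prism operator
is obtained by realising ordered chains of `Dl n × Dl 1` by affine maps.
-/

set_option autoImplicit false

namespace Pool.Agent.Helper66.TR

open Set Topology Pool.Agent.Helper13.TR

/-! ### Ordered chains -/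

/-- ordered chains of a type -/
private abbrev OC (V : Type) (k : ℕ) : Type := (Fin (k + 1) → V) →₀ ℤ

private noncomputable def od {V : Type} (k : ℕ) : OC V (k + 1) →ₗ[ℤ] OC V k :=
  Finsupp.linearCombination ℤ fun v : Fin (k + 2) → V =>
    ∑ i : Fin (k + 2), ((-1 : ℤ) ^ (i : ℕ)) • Finsupp.single (v ∘ i.succAbove) (1 : ℤ)

private noncomputable def oc {V : Type} (b : V) (k : ℕ) : OC V k →ₗ[ℤ] OC V (k + 1) :=
  Finsupp.lmapDomain ℤ ℤ fun v : Fin (k + 1) → V => (Fin.cons b v : Fin (k + 2) → V)

private noncomputable def om {V W : Type} (f : V → W) (k : ℕ) : OC V k →ₗ[ℤ] OC W k :=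
  Finsupp.lmapDomain ℤ ℤ fun v : Fin (k + 1) → V => f ∘ v

private lemma od_single {V : Type} (k : ℕ) (v : Fin (k + 2) → V) :
    od k (Finsupp.single v 1) =
      ∑ i : Fin (k + 2), ((-1 : ℤ) ^ (i : ℕ)) • Finsupp.single (v ∘ i.succAbove) (1 : ℤ) := by
  simp [od, Finsupp.linearCombination_single]

private lemma oc_single {V : Type} (b : V) (k : ℕ) (v : Fin (k + 1) → V) :
    oc b k (Finsupp.single v 1) = Finsupp.single (Fin.cons b v : Fin (k + 2) → V) 1 := by
  simp [oc, Finsupp.lmapDomain_apply, Finsupp.mapDomain_single]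

private lemma om_single {V W : Type} (f : V → W) (k : ℕ) (v : Fin (k + 1) → V) :
    om f k (Finsupp.single v 1) = Finsupp.single (f ∘ v) 1 := by
  simp [om, Finsupp.lmapDomain_apply, Finsupp.mapDomain_single]

private lemma om_od {V W : Type} (f : V → W) (k : ℕ) (c : OC V (k + 1)) :
    od k (om f (k + 1) c) = om f k (od k c) := by
  have h : (od k).comp (om f (k + 1)) = (om f k).comp (od (V := V) k) := by
    apply Finsupp.lhom_ext'
    intro v
    apply LinearMap.ext_ring
    simp only [LinearMap.comp_apply, Finsupp.lsingle_apply, om_single, od_single, map_sum,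
      map_smul]
    rfl
  exact LinearMap.congr_fun h c

private lemma cons_comp_succAbove {V : Type} (k : ℕ) (b : V) (v : Fin (k + 2) → V) (i : Fin (k + 2)) :
    (Fin.cons b v : Fin (k + 3) → V) ∘ i.succ.succAbove = Fin.cons b (v ∘ i.succAbove) := by
  funext j
  refine Fin.cases ?_ (fun j => ?_) j
  · simp
  · simp [Fin.succ_succAbove_succ]

private lemma cons_comp_zero {V : Type} (k : ℕ) (b : V) (v : Fin (k + 1) → V) :
    (Fin.cons b v : Fin (k + 2) → V) ∘ (0 : Fin (k + 2)).succAbove = v := by
  funext j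
  simp

private lemma od_oc {V : Type} (b : V) (k : ℕ) (c : OC V (k + 1)) :
    od (k + 1) (oc b (k + 1) c) = c - oc b k (od k c) := by
  have h : (od (k + 1)).comp (oc b (k + 1)) = LinearMap.id - (oc b k).comp (od (V := V) k) := by
    apply Finsupp.lhom_ext'
    intro v
    apply LinearMap.ext_ring
    simp only [LinearMap.comp_apply, LinearMap.sub_apply, LinearMap.id_apply, Finsupp.lsingle_apply,
      oc_single, od_single, map_sum, map_smul]
    rw [Fin.sum_univ_succ]
    simp only [cons_comp_zero, cons_comp_succAbove, Fin.val_zero, pow_zero, one_smul, Fin.val_succ,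
      pow_succ, mul_neg, mul_one, neg_smul, Finset.sum_neg_distrib]
    rw [sub_eq_add_neg]
  exact LinearMap.congr_fun h c

private lemma od_oc_single_zero {V : Type} (b : V) (v : Fin 1 → V) :
    od 0 (oc b 0 (Finsupp.single v 1)) = Finsupp.single v 1 - Finsupp.single (fun _ => b) 1 := by
  rw [oc_single, od_single, Fin.sum_univ_succ]
  simp only [cons_comp_zero, Fin.val_zero, pow_zero, one_smul, Finset.univ_unique, Fin.default_eq_zero,
    Finset.sum_singleton, Fin.val_succ, zero_add, pow_one, neg_smul]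
  rw [sub_eq_add_neg]
  congr 3
  funext j
  fin_cases j
  simp [Fin.succAbove]

/-! ### The prism operator on ordered chains -/

private noncomputable def opr {V W : Type} (z₀ z₁ : W) : ∀ k : ℕ, OC V k →ₗ[ℤ] OC (V × W) (k + 1)
  | 0 => Finsupp.linearCombination ℤ fun v : Fin 1 → V =>
      oc (v 0, z₀) 0 (Finsupp.single (fun i => (v i, z₁)) 1)
  | k + 1 => Finsupp.linearCombination ℤ fun v : Fin (k + 2) → V =>
      oc (v 0, z₀) (k + 1) (Finsupp.single (fun i => (v i, z₁)) 1 -
        opr z₀ z₁ k (Finsupp.single (Fin.tail v) 1))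

private lemma opr_zero {V W : Type} (z₀ z₁ : W) (v : Fin 1 → V) :
    opr z₀ z₁ 0 (Finsupp.single v 1) = oc (v 0, z₀) 0 (Finsupp.single (fun i => (v i, z₁)) 1) := by
  simp [opr, Finsupp.linearCombination_single]

private lemma opr_succ {V W : Type} (z₀ z₁ : W) (k : ℕ) (v : Fin (k + 2) → V) :
    opr z₀ z₁ (k + 1) (Finsupp.single v 1) =
      oc (v 0, z₀) (k + 1) (Finsupp.single (fun i => (v i, z₁)) 1 -
        opr z₀ z₁ k (Finsupp.single (Fin.tail v) 1)) := by
  simp [opr, Finsupp.linearCombination_single]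

private lemma opr_oc {V W : Type} (z₀ z₁ : W) (b : V) (k : ℕ) (c : OC V k) :
    opr z₀ z₁ (k + 1) (oc b k c) =
      oc (b, z₀) (k + 1) (om (fun x => (x, z₁)) (k + 1) (oc b k c) - opr z₀ z₁ k c) := by
  have h : (opr z₀ z₁ (k + 1)).comp (oc b k) =
      (oc (b, z₀) (k + 1)).comp ((om (fun x => (x, z₁)) (k + 1)).comp (oc b k) - opr z₀ z₁ k) := by
    apply Finsupp.lhom_ext'
    intro v
    apply LinearMap.ext_ring
    simp only [LinearMap.comp_apply, LinearMap.sub_apply, Finsupp.lsingle_apply, oc_single,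
      om_single, opr_succ, Fin.cons_zero, Fin.tail_cons]
    rfl
  exact LinearMap.congr_fun h c

private lemma od_opr_zero {V W : Type} (z₀ z₁ : W) (v : Fin 1 → V) :
    od 0 (opr z₀ z₁ 0 (Finsupp.single v 1)) =
      Finsupp.single (fun i => (v i, z₁)) 1 - Finsupp.single (fun i => (v i, z₀)) 1 := by
  rw [opr_zero, od_oc_single_zero]
  congr 2
  funext j
  fin_cases j
  rfl

private lemma om_pair {V W : Type} (z : W) (k : ℕ) (v : Fin (k + 1) → V) :
    om (fun x => (x, z)) k (Finsupp.single v 1) = Finsupp.single (fun i => (v i, z)) 1 := by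
  rw [om_single]
  rfl

private lemma od_opr {V W : Type} (z₀ z₁ : W) : ∀ (k : ℕ) (v : Fin (k + 2) → V),
    od (k + 1) (opr z₀ z₁ (k + 1) (Finsupp.single v 1)) =
      Finsupp.single (fun i => (v i, z₁)) 1 - Finsupp.single (fun i => (v i, z₀)) 1 -
        opr z₀ z₁ k (od k (Finsupp.single v 1)) := by
  intro k
  induction k with
  | zero =>
    intro v
    obtain ⟨b, w, rfl⟩ : ∃ (b : V) (w : Fin 1 → V), v = Fin.cons b w :=
      ⟨v 0, Fin.tail v, (Fin.cons_self_tail v).symm⟩
    have hv : (Finsupp.single (Fin.cons b w : Fin 2 → V) 1 : OC V 1) = oc b 0 (Finsupp.single w 1) :=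
      (oc_single _ _ _).symm
    have h1 : od 0 (Finsupp.single (fun i => ((Fin.cons b w : Fin 2 → V) i, z₁)) 1 : OC (V × W) 1) =
        Finsupp.single (fun i => (w i, z₁)) 1 - Finsupp.single (fun _ => (b, z₁)) 1 := by
      rw [← om_pair, hv, om_od, od_oc_single_zero, map_sub, om_pair, om_pair]
    rw [opr_succ, od_oc, map_sub, h1, Fin.tail_cons, od_opr_zero, hv, od_oc_single_zero,
      Fin.cons_zero]
    simp only [map_sub]
    rw [opr_zero, opr_zero, oc_single (b, z₀) 0 (fun i => (w i, z₀))]
    have h2 : (Fin.cons (b, z₀) (fun i => (w i, z₀)) : Fin 2 → V × W) =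
        fun i => ((Fin.cons b w : Fin 2 → V) i, z₀) := by
      funext j
      refine Fin.cases ?_ (fun j => ?_) j
      · simp
      · simp
    rw [h2]
    abel
  | succ k ih =>
    intro v
    obtain ⟨b, w, rfl⟩ : ∃ (b : V) (w : Fin (k + 2) → V), v = Fin.cons b w :=
      ⟨v 0, Fin.tail v, (Fin.cons_self_tail v).symm⟩
    have hv : (Finsupp.single (Fin.cons b w : Fin (k + 3) → V) 1 : OC V (k + 2)) =
        oc b (k + 1) (Finsupp.single w 1) := (oc_single _ _ _).symm
    have h1 : od (k + 1) (Finsupp.single (fun i => ((Fin.cons b w : Fin (k + 3) → V) i, z₁)) 1 :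
          OC (V × W) (k + 2)) =
        Finsupp.single (fun i => (w i, z₁)) 1 -
          om (fun x => (x, z₁)) (k + 1) (oc b k (od k (Finsupp.single w 1))) := by
      rw [← om_pair, hv, om_od, od_oc, map_sub, om_pair]
    have h2 : oc (b, z₀) (k + 1) (Finsupp.single (fun i => (w i, z₀)) 1) =
        Finsupp.single (fun i => ((Fin.cons b w : Fin (k + 3) → V) i, z₀)) 1 := by
      rw [oc_single]
      congr 1
      funext j
      refine Fin.cases ?_ (fun j => ?_) j
      · simp
      · simp
    rw [opr_succ, od_oc, map_sub, h1, Fin.tail_cons, ih w, hv, od_oc, ← h2, Fin.cons_zero]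
    simp only [map_sub]
    rw [opr_oc]
    simp only [map_sub]
    abel

private lemma om_opr {V V' W : Type} (z₀ z₁ : W) (f : V → V') : ∀ (k : ℕ) (c : OC V k),
    opr z₀ z₁ k (om f k c) = om (Prod.map f id) (k + 1) (opr z₀ z₁ k c) := by
  have key : ∀ (b : V × W) (k : ℕ) (c : OC (V × W) k),
      om (Prod.map f id) (k + 1) (oc b k c) =
        oc (Prod.map f id b) k (om (Prod.map f id) k c) := by
    intro b k c
    have h : (om (Prod.map f id) (k + 1)).comp (oc b k) =
        (oc (Prod.map f id b) k).comp (om (Prod.map f (id : W → W)) k) := by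
      apply Finsupp.lhom_ext'
      intro v
      apply LinearMap.ext_ring
      simp only [LinearMap.comp_apply, Finsupp.lsingle_apply, oc_single, om_single]
      congr 1
      funext j
      refine Fin.cases ?_ (fun j => ?_) j
      · simp
      · simp
    exact LinearMap.congr_fun h c
  intro k
  induction k with
  | zero =>
    intro c
    have h : (opr z₀ z₁ 0).comp (om f 0) = (om (Prod.map f id) 1).comp (opr z₀ z₁ 0) := by
      apply Finsupp.lhom_ext'
      intro v
      apply LinearMap.ext_ring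
      simp only [LinearMap.comp_apply, Finsupp.lsingle_apply, om_single, opr_zero, key]
      rfl
    exact LinearMap.congr_fun h c
  | succ k ih =>
    intro c
    have h : (opr z₀ z₁ (k + 1)).comp (om f (k + 1)) =
        (om (Prod.map f id) (k + 2)).comp (opr z₀ z₁ (k + 1)) := by
      apply Finsupp.lhom_ext'
      intro v
      apply LinearMap.ext_ring
      simp only [LinearMap.comp_apply, Finsupp.lsingle_apply, om_single, opr_succ, key, map_sub,
        ← ih]
      rfl
    exact LinearMap.congr_fun h c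

/-! ### Realisation -/

private noncomputable def qlin {n k : ℕ} (w : Fin (k + 1) → Dl n × Dl 1) : C(Dl k, Dl n × Dl 1) :=
  (lin (Prod.fst ∘ w)).prodMk (lin (Prod.snd ∘ w))

private noncomputable def Rz {Y : Type} [TopologicalSpace Y] {n : ℕ} (G : C(Dl n × Dl 1, Y)) (k : ℕ) :
    OC (Dl n × Dl 1) k →ₗ[ℤ] Ch Y k :=
  Finsupp.lmapDomain ℤ ℤ fun w => G.comp (qlin w)

private lemma Rz_single {Y : Type} [TopologicalSpace Y] {n : ℕ} (G : C(Dl n × Dl 1, Y)) (k : ℕ)
    (w : Fin (k + 1) → Dl n × Dl 1) :
    Rz G k (Finsupp.single w 1) = Finsupp.single (G.comp (qlin w)) 1 := by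
  simp [Rz, Finsupp.lmapDomain_apply, Finsupp.mapDomain_single]

private lemma bd_single' {X : Type} [TopologicalSpace X] (n : ℕ) (σ : Sx X (n + 1)) :
    bd n (Finsupp.single σ 1) =
      ∑ i : Fin (n + 2), ((-1 : ℤ) ^ (i : ℕ)) • Finsupp.single (σ.comp (face n i)) (1 : ℤ) := by
  simp [bd, Finsupp.linearCombination_single]

private lemma push_single' {X Y : Type} [TopologicalSpace X] [TopologicalSpace Y] (f : C(X, Y))
    (n : ℕ) (σ : Sx X n) :
    push f n (Finsupp.single σ 1) = Finsupp.single (f.comp σ) 1 := by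
  simp [push, Finsupp.lmapDomain_apply, Finsupp.mapDomain_single]

private lemma bd_Rz (hLNA : StLNA) {Y : Type} [TopologicalSpace Y] {n : ℕ} (G : C(Dl n × Dl 1, Y))
    (k : ℕ) (a : OC (Dl n × Dl 1) (k + 1)) : bd k (Rz G (k + 1) a) = Rz G k (od k a) := by
  have h : (bd k).comp (Rz G (k + 1)) = (Rz G k).comp (od k) := by
    apply Finsupp.lhom_ext'
    intro w
    apply LinearMap.ext_ring
    simp only [LinearMap.comp_apply, Finsupp.lsingle_apply, Rz_single, od_single, bd_single',
      map_sum, map_smul]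
    refine Finset.sum_congr rfl fun i _ => ?_
    have hq : (qlin w).comp (face k i) = qlin (w ∘ i.succAbove) := by
      have e1 := hLNA.2.2.2.1 n k (Prod.fst ∘ w) i
      have e2 := hLNA.2.2.2.1 1 k (Prod.snd ∘ w) i
      ext1 t
      refine Prod.ext ?_ ?_
      · exact ContinuousMap.congr_fun e1 t
      · exact ContinuousMap.congr_fun e2 t
    rw [ContinuousMap.comp_assoc, hq]
  exact LinearMap.congr_fun h a

private lemma Rz_om (hLNA : StLNA) {Y : Type} [TopologicalSpace Y] {n m : ℕ} (u : Av m n)
    (G : C(Dl m × Dl 1, Y)) (k : ℕ) (a : OC (Dl n × Dl 1) k) :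
    Rz G k (om (Prod.map (lin u) id) k a) =
      Rz (G.comp ((lin u).prodMap (ContinuousMap.id _))) k a := by
  have h : (Rz G k).comp (om (Prod.map (lin u) id) k) =
      Rz (G.comp ((lin u).prodMap (ContinuousMap.id _))) k := by
    apply Finsupp.lhom_ext'
    intro w
    apply LinearMap.ext_ring
    simp only [LinearMap.comp_apply, Finsupp.lsingle_apply, Rz_single, om_single]
    have hq : ((lin u).prodMap (ContinuousMap.id _)).comp (qlin w) =
        qlin (Prod.map (lin u) (id : Dl 1 → Dl 1) ∘ w) := by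
      have e1 := hLNA.2.2.1 n m k u (Prod.fst ∘ w)
      ext1 t
      refine Prod.ext ?_ ?_
      · exact ContinuousMap.congr_fun e1 t
      · rfl
    rw [ContinuousMap.comp_assoc, hq]
  exact LinearMap.congr_fun h a

private lemma lin_const {n k : ℕ} (z : Dl n) (t : Dl k) : lin (fun _ : Fin (k + 1) => z) t = z := by
  apply Subtype.ext
  show ∑ i, t i • (z : Fin (n + 1) → ℝ) = z
  rw [← Finset.sum_smul]
  have := t.2.2
  rw [show ∑ i, t i = 1 from this, one_smul]

/-! ### The singular prism operator -/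

private noncomputable def ht : C(Dl 1, unitInterval) where
  toFun t := ⟨t 1, t.2.1 1, by
    have h := t.2.2
    rw [Fin.sum_univ_two] at h
    have h0 := t.2.1 0
    change (0 : ℝ) ≤ t 0 at h0
    change (t 0 : ℝ) + t 1 = 1 at h
    linarith⟩
  continuous_toFun := by
    refine Continuous.subtype_mk ?_ _
    exact (continuous_apply (1 : Fin 2)).comp continuous_subtype_val

private lemma ht_zero : ht (stdSimplex.vertex 0) = 0 := by
  apply Subtype.ext
  show (stdSimplex.vertex (S := ℝ) (0 : Fin 2) : Fin 2 → ℝ) 1 = 0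
  simp [stdSimplex.vertex]

private lemma ht_one : ht (stdSimplex.vertex 1) = 1 := by
  apply Subtype.ext
  show (stdSimplex.vertex (S := ℝ) (1 : Fin 2) : Fin 2 → ℝ) 1 = 1
  simp [stdSimplex.vertex]

section main

variable {X Y : Type} [TopologicalSpace X] [TopologicalSpace Y] {f g : C(X, Y)}

private noncomputable def GG (H : f.Homotopy g) {n : ℕ} (σ : Sx X n) : C(Dl n × Dl 1, Y) :=
  H.toContinuousMap.comp ((ht.comp ContinuousMap.snd).prodMk (σ.comp ContinuousMap.fst))

private lemma GG_apply (H : f.Homotopy g) {n : ℕ} (σ : Sx X n) (p : Dl n × Dl 1) :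
    GG H σ p = H (ht p.2, σ p.1) := rfl

private noncomputable def PP' (H : f.Homotopy g) (n : ℕ) : Ch X n →ₗ[ℤ] Ch Y (n + 1) :=
  Finsupp.linearCombination ℤ fun σ : Sx X n =>
    Rz (GG H σ) (n + 1) (opr (stdSimplex.vertex 0) (stdSimplex.vertex 1) n (Finsupp.single (iot n) 1))

private lemma PP'_single (H : f.Homotopy g) (n : ℕ) (σ : Sx X n) :
    PP' H n (Finsupp.single σ 1) =
      Rz (GG H σ) (n + 1)
        (opr (stdSimplex.vertex 0) (stdSimplex.vertex 1) n (Finsupp.single (iot n) 1)) := by
  simp [PP', Finsupp.linearCombination_single]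

private lemma Rz_top (hLNA : StLNA) (H : f.Homotopy g) (n : ℕ) (σ : Sx X n) :
    Rz (GG H σ) n (Finsupp.single (fun i => (iot n i, stdSimplex.vertex 1)) 1) =
      push g n (Finsupp.single σ 1) := by
  rw [Rz_single, push_single']
  congr 1
  ext1 t
  have e := ContinuousMap.congr_fun (hLNA.2.2.2.2 n) t
  show H (ht (lin (fun _ => stdSimplex.vertex 1) t), σ (lin (iot n) t)) = g (σ t)
  rw [lin_const, ht_one, e]
  simp

private lemma Rz_bot (hLNA : StLNA) (H : f.Homotopy g) (n : ℕ) (σ : Sx X n) :
    Rz (GG H σ) n (Finsupp.single (fun i => (iot n i, stdSimplex.vertex 0)) 1) =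
      push f n (Finsupp.single σ 1) := by
  rw [Rz_single, push_single']
  congr 1
  ext1 t
  have e := ContinuousMap.congr_fun (hLNA.2.2.2.2 n) t
  show H (ht (lin (fun _ => stdSimplex.vertex 0) t), σ (lin (iot n) t)) = f (σ t)
  rw [lin_const, ht_zero, e]
  simp

private lemma side (hLNA : StLNA) (H : f.Homotopy g) (n : ℕ) (σ : Sx X (n + 1)) :
    Rz (GG H σ) (n + 1) (opr (stdSimplex.vertex 0) (stdSimplex.vertex 1) n
        (od n (Finsupp.single (iot (n + 1)) 1))) =
      PP' H n (bd n (Finsupp.single σ 1)) := by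
  rw [od_single, bd_single']
  simp only [map_sum, map_smul, PP'_single]
  refine Finset.sum_congr rfl fun i _ => ?_
  congr 1
  have hf := hLNA.2.1 n i
  have hs : (Finsupp.single (iot (n + 1) ∘ i.succAbove) (1 : ℤ) : OC (Dl (n + 1)) n) =
      om (lin fun j => stdSimplex.vertex (i.succAbove j)) n (Finsupp.single (iot n) 1) := by
    rw [om_single]
    congr 1
    funext j
    exact (hLNA.1 (n + 1) n (fun j => stdSimplex.vertex (i.succAbove j)) j).symm
  rw [hs, om_opr, Rz_om hLNA, hf]
  rfl

private lemma Rz_mem (H : f.Homotopy g) {n : ℕ} (σ : Sx X n) (S : Set X) (hσ : range σ ⊆ S) (k : ℕ)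
    (a : OC (Dl n × Dl 1) k) : Rz (GG H σ) k a ∈ cin {y | ∃ x ∈ S, ∃ t, H (t, x) = y} k := by
  induction a using Finsupp.induction_linear with
  | zero => rw [map_zero]; exact Submodule.zero_mem _
  | add a b ha hb => rw [map_add]; exact Submodule.add_mem _ ha hb
  | single w m =>
    have h1 : (Finsupp.single w m : OC (Dl n × Dl 1) k) = m • Finsupp.single w 1 := by simp
    rw [h1, map_smul, Rz_single]
    refine Submodule.smul_mem _ _ (Finsupp.single_mem_supported ℤ _ ?_)
    rintro y ⟨t, rfl⟩
    exact ⟨σ (qlin w t).1, hσ ⟨_, rfl⟩, ht (qlin w t).2, rfl⟩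

end main

/-- PRI: homotopy invariance with carriers. -/
theorem hPRI (hLNA : StLNA) : StPRI := by
  intro X Y _ _ f g H
  refine ⟨PP' H, ?_, ?_, ?_⟩
  · intro c
    have h : (bd 0).comp (PP' H 0) = push g 0 - push f 0 := by
      apply Finsupp.lhom_ext'
      intro σ
      apply LinearMap.ext_ring
      simp only [LinearMap.comp_apply, LinearMap.sub_apply, Finsupp.lsingle_apply, PP'_single]
      rw [bd_Rz hLNA, od_opr_zero, map_sub, Rz_top hLNA, Rz_bot hLNA]
    exact LinearMap.congr_fun h c
  · intro n c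
    have h : (bd (n + 1)).comp (PP' H (n + 1)) + (PP' H n).comp (bd n) =
        push g (n + 1) - push f (n + 1) := by
      apply Finsupp.lhom_ext'
      intro σ
      apply LinearMap.ext_ring
      simp only [LinearMap.comp_apply, LinearMap.add_apply, LinearMap.sub_apply,
        Finsupp.lsingle_apply]
      rw [PP'_single, bd_Rz hLNA, od_opr, map_sub, map_sub, Rz_top hLNA, Rz_bot hLNA, side hLNA]
      abel
    exact LinearMap.congr_fun h c
  · intro S n c hc
    have h1 : PP' H n c = c.sum fun σ m => m • Rz (GG H σ) (n + 1)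
        (opr (stdSimplex.vertex 0) (stdSimplex.vertex 1) n (Finsupp.single (iot n) 1)) := by
      simp [PP', Finsupp.linearCombination_apply]
    rw [h1]
    refine Submodule.sum_mem _ fun σ hσ => Submodule.smul_mem _ _ ?_
    exact Rz_mem H σ S ((Finsupp.mem_supported ℤ c).1 hc hσ) _ _

end Pool.Agent.Helper66.TR
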